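import Pool.Agent.Helper17.CT.Defs

set_option autoImplicit false

/-!
CT-14: the paths outside of an embedded piece do not cross (planarity as vanishing first homology).
-/

namespace Pool.Agent.Helper17.CT

theorem ct14_step_symm {H : Type} {s a : H → H} (s3 : ∀ d, s (s (s d)) = d)
    (a2 : ∀ d, a (a d) = d) {U : H → Bool} {x y : H} (h : Step s a U x y) : Step s a U y x := by
  obtain ⟨h1, h2, h3⟩ := h
  refine ⟨h2, h1, ?_⟩
  rcases h3 with rfl | rfl | rfl
  · left; rw [a2]
  · right; right; rw [s3]
  · right; left; rw [s3]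

theorem ct14_conn_symm {H : Type} {s a : H → H} (s3 : ∀ d, s (s (s d)) = d)
    (a2 : ∀ d, a (a d) = d) {U : H → Bool} {x y : H} (h : Conn s a U x y) : Conn s a U y x := by
  induction h with
  | refl => exact Relation.ReflTransGen.refl
  | tail _ hbc ih => exact Relation.ReflTransGen.head (ct14_step_symm s3 a2 hbc) ih

/-- the darts at the boundary vertices -/
def ct14_g {I : Type} {k : ℕ} (F : Inner I k) (r : ℕ → I) (t : ℕ) (n : Fin 3) : I :=
  (F.s)^[n.val] (r t)

section data
variable {I : Type} {k : ℕ} {F : Inner I k}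

theorem ct14_g0 (r : ℕ → I) (t : ℕ) : ct14_g F r t 0 = r t := rfl

theorem ct14_g1 (r : ℕ → I) (t : ℕ) : ct14_g F r t 1 = F.s (r t) := rfl

theorem ct14_g2 (r : ℕ → I) (t : ℕ) : ct14_g F r t 2 = F.s (F.s (r t)) := rfl

theorem ct14_gs (r : ℕ → I) (t : ℕ) (n : Fin 3) :
    F.s (ct14_g F r t n) = ct14_g F r t (n + 1) := by
  fin_cases n
  · rfl
  · rfl
  · exact F.s3 (r t)

theorem ct14_ginj {R : ℕ} {r : ℕ → I} {u : ℕ → Bool} {τ : Fin k → ℕ} (hR : Ring F R r u τ)
    {t t' : ℕ} (ht : t < R) (ht' : t' < R) {n n' : Fin 3}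
    (h : ct14_g F r t n = ct14_g F r t' n') : t = t' ∧ n = n' := by
  have hs2 : ∀ x, F.s (F.s x) ≠ x := by
    intro x hx
    have h1 := F.s3 x
    rw [hx] at h1
    exact F.s1 x h1
  have htt : t = t' := by
    refine (hR.dist t t' ht ht' ?_).symm
    fin_cases n <;> fin_cases n' <;>
      simp only [ct14_g, Function.iterate_zero, id_eq, Function.iterate_succ,
        Function.comp_apply] at h
    · exact Or.inl h.symm
    · right; right
      rw [h, F.s3]
    · right; left
      rw [h, F.s3]
    · right; left; exact h.symm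
    · left
      have h1 := congrArg (fun z => F.s (F.s z)) h
      simp only [F.s3] at h1
      exact h1.symm
    · right; right
      have h1 := congrArg (fun z => F.s z) h
      simp only [F.s3] at h1
      exact h1.symm
    · right; right; exact h.symm
    · right; left
      have h1 := congrArg (fun z => F.s (F.s z)) h
      simp only [F.s3] at h1
      exact h1.symm
    · left
      have h1 := congrArg (fun z => F.s z) h
      simp only [F.s3] at h1
      exact h1.symm
  subst htt
  refine ⟨rfl, ?_⟩
  fin_cases n <;> fin_cases n' <;>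
    simp only [ct14_g, Function.iterate_zero, id_eq,
      Function.iterate_succ, Function.comp_apply, Fin.zero_eta, Fin.mk_one,
      Fin.reduceFinMk] at h ⊢
  · exact absurd h.symm (F.s1 _)
  · exact absurd h.symm (hs2 _)
  · exact absurd h (F.s1 _)
  · exact absurd h.symm (F.s1 _)
  · exact absurd h (hs2 _)
  · exact absurd h (F.s1 _)

variable {D : Type} {M : CMap D} (E : Emb F M)

/-- CT-14 -/
theorem nc_lemma [Finite D] (hp : M.Planar) {R : ℕ} {r : ℕ → I} {u : ℕ → Bool} {τ : Fin k → ℕ}
    (hR : Ring F R r u τ) (O : E.HSet → Bool) (hO : E.outer.Sys O) (b : Fin k → Fin k)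
    (ε : Fin k → Bool) (hb : E.outer.Spec O b ε) (i j l m : Fin k) (h1 : i < j) (h2 : j < l)
    (h3 : l < m) (h4 : b i = l) (h5 : b j = m) : False := by
  classical
  set N := E.outer with hN
  have hil : i < l := h1.trans h2
  have hτil : τ i < τ l := hR.mono hil
  have hτij : τ i < τ j := hR.mono h1
  have hτjl : τ j < τ l := hR.mono h2
  have hτlm : τ l < τ m := hR.mono h3
  have hNa : ∀ x : E.HSet, (N.a x).1 = M.a x.1 := fun _ => rfl
  have hport : ∀ j, (N.port j).1 = E.ι (F.q j) := fun _ => rfl
  have hNs_out : ∀ x : E.HSet, (∀ y, E.ι y ≠ x.1) → (N.s x).1 = M.s x.1 := by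
    intro x hx
    simp only [hN, Emb.outer]
    rw [dif_pos hx]
  have hNs_in : ∀ x : E.HSet, (∃ y, E.ι y = x.1) → N.s x = x := by
    intro x hx
    simp only [hN, Emb.outer]
    rw [dif_neg]
    push Not
    exact hx
  have hsymm : ∀ x y, Conn N.s N.a O x y → Conn N.s N.a O y x := fun x y h =>
    ct14_conn_symm N.s3 N.a2 h
  have hOi : O (N.port i) = true := (hb.use i).mpr (by rw [h4]; exact hil.ne')
  have hbl : b l = i := by rw [← h4, hb.inv]
  have hOl : O (N.port l) = true := (hb.use l).mpr (by rw [hbl]; exact hil.ne)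
  have hOj : O (N.port j) = true := (hb.use j).mpr (by rw [h5]; exact (h2.trans h3).ne')
  have hcil : Conn N.s N.a O (N.port i) (N.port l) := by
    have := hb.con i hOi
    rwa [h4] at this
  have hcjm : Conn N.s N.a O (N.port j) (N.port m) := by
    have := hb.con j hOj
    rwa [h5] at this
  set P : E.HSet → Prop := fun x => O x = true ∧ Conn N.s N.a O (N.port i) x with hP
  have hPport : ∀ j', P (N.port j') ↔ (j' = i ∨ j' = l) := by
    intro j'
    constructor
    · rintro ⟨-, hc⟩
      have := hb.uni i j' hOi hc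
      rwa [h4] at this
    · rintro (rfl | rfl)
      · exact ⟨hOi, Relation.ReflTransGen.refl⟩
      · exact ⟨hOl, hcil⟩
  have hPa : ∀ x, P x → P (N.a x) := by
    rintro x ⟨hx1, hx2⟩
    have h6 : O (N.a x) = true := by rw [hO.acl]; exact hx1
    exact ⟨h6, hx2.tail ⟨hx1, h6, Or.inl rfl⟩⟩
  have hPs : ∀ x, P x → O (N.s x) = true → P (N.s x) := by
    rintro x ⟨hx1, hx2⟩ h6
    exact ⟨h6, hx2.tail ⟨hx1, h6, Or.inr (Or.inl rfl)⟩⟩
  have hPss : ∀ x, P x → O (N.s (N.s x)) = true → P (N.s (N.s x)) := by
    rintro x ⟨hx1, hx2⟩ h6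
    exact ⟨h6, hx2.tail ⟨hx1, h6, Or.inr (Or.inr rfl)⟩⟩
  -- ports and boundary darts
  have hnp : ∀ t, t < τ l → ∀ j', r t ≠ F.q j' := by
    intro t ht
    exact hR.np t (lt_of_le_of_lt (Nat.succ_le_of_lt ht) (hR.pR l))
  have hnpe : ∀ t, t < τ l → ∀ j', F.e (r t) ≠ F.q j' := fun t ht => F.eq _ (hnp t ht)
  set ZI : I → Prop := fun x => (∃ t, τ i ≤ t ∧ t < τ l ∧ (x = r t ∨ x = F.e (r t))) ∨
    x = F.q i ∨ x = F.q l with hZI
  have hZIport : ∀ j', ZI (F.q j') ↔ (j' = i ∨ j' = l) := by
    intro j'
    constructor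
    · rintro (⟨t, -, ht, ht' | ht'⟩ | h | h)
      · exact absurd ht'.symm (hnp t ht j')
      · exact absurd ht'.symm (hnpe t ht j')
      · exact Or.inl (F.qi h)
      · exact Or.inr (F.qi h)
    · rintro (rfl | rfl)
      · exact Or.inr (Or.inl rfl)
      · exact Or.inr (Or.inr rfl)
  have hHport : ∀ x, E.ι x ∈ E.HSet → ∃ j', x = F.q j' := by
    rintro x (h | ⟨j', h⟩)
    · exact absurd rfl (h x)
    · exact ⟨j', (E.inj h).symm⟩
  set Z : D → Bool := fun d => decide ((∃ h : d ∈ E.HSet, P ⟨d, h⟩) ∨ ∃ x, E.ι x = d ∧ ZI x)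
    with hZ
  have hZdef : ∀ d, Z d = true ↔ ((∃ h : d ∈ E.HSet, P ⟨d, h⟩) ∨ ∃ x, E.ι x = d ∧ ZI x) := by
    intro d
    simp only [hZ, decide_eq_true_eq]
  have hZι : ∀ x, Z (E.ι x) = true ↔ ZI x := by
    intro x
    rw [hZdef]
    constructor
    · rintro (⟨h, hPx⟩ | ⟨y, hy, hz⟩)
      · obtain ⟨j', rfl⟩ := hHport x h
        exact (hZIport j').mpr ((hPport j').mp hPx)
      · rw [← E.inj hy]; exact hz
    · intro h
      exact Or.inr ⟨x, rfl, h⟩
  have hZH : ∀ d (h : d ∈ E.HSet), Z d = true ↔ P ⟨d, h⟩ := by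
    intro d h
    rw [hZdef]
    constructor
    · rintro (⟨_, hPx⟩ | ⟨y, hy, hz⟩)
      · exact hPx
      · subst hy
        obtain ⟨j', rfl⟩ := hHport y h
        exact (hPport j').mpr ((hZIport j').mp hz)
    · intro h'
      exact Or.inl ⟨h, h'⟩
  -- `Z` is closed under `a`
  have hZacl' : ∀ d, Z d = true → Z (M.a d) = true := by
    intro d hd
    by_cases h : d ∈ E.HSet
    · exact (hZH _ (E.a_mem h)).mpr (hPa _ ((hZH d h).mp hd))
    · have hx : ∃ x, E.ι x = d := by
        by_contra hcon
        push Not at hcon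
        exact h (Or.inl hcon)
      obtain ⟨x, rfl⟩ := hx
      have hxp : ∀ j', x ≠ F.q j' := by
        rintro j' rfl
        exact h (Or.inr ⟨j', rfl⟩)
      rw [← E.he x hxp]
      rw [hZι] at hd ⊢
      rcases hd with ⟨t, ht1, ht2, rfl | rfl⟩ | rfl | rfl
      · exact Or.inl ⟨t, ht1, ht2, Or.inr rfl⟩
      · exact Or.inl ⟨t, ht1, ht2, Or.inl (F.e2 _ (hnp t ht2))⟩
      · exact absurd rfl (hxp i)
      · exact absurd rfl (hxp l)
  have hZacl : ∀ d, Z (M.a d) = Z d := by
    intro d
    rw [Bool.eq_iff_iff]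
    refine ⟨fun h => ?_, hZacl' d⟩
    have := hZacl' _ h
    rwa [M.a2] at this
  -- the classification at the boundary vertices
  have hqg : ∀ j', F.q j' = ct14_g F r (τ j') 1 := fun j' => hR.pq j'
  have heg : ∀ t, t + 1 < R → F.e (r t) = ct14_g F r (t + 1) (if u (t + 1) then 1 else 2) := by
    intro t ht
    rw [hR.next t ht]
    by_cases hu : u (t + 1) = true
    · rw [if_pos hu, if_pos hu, ct14_g1]
    · rw [if_neg hu, if_neg hu, ct14_g2]
  have hcl : ∀ t, t < R → ∀ n : Fin 3, ZI (ct14_g F r t n) ↔
      ((n = 0 ∧ τ i ≤ t ∧ t < τ l) ∨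
       (n = (if u t then 1 else 2) ∧ τ i < t ∧ t ≤ τ l) ∨ (n = 1 ∧ (t = τ i ∨ t = τ l))) := by
    intro t ht n
    constructor
    · rintro (⟨t', h6, h7, h8 | h8⟩ | h8 | h8)
      · have := ct14_ginj hR ht (h7.trans (hR.pR l)) (n' := 0) h8
        obtain ⟨rfl, rfl⟩ := this
        exact Or.inl ⟨rfl, h6, h7⟩
      · have h9 : t' + 1 < R := lt_of_le_of_lt (Nat.succ_le_of_lt h7) (hR.pR l)
        rw [heg t' h9] at h8
        obtain ⟨rfl, rfl⟩ := ct14_ginj hR ht h9 h8
        exact Or.inr (Or.inl ⟨rfl, by omega, by omega⟩)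
      · rw [hqg] at h8
        obtain ⟨rfl, rfl⟩ := ct14_ginj hR ht (hR.pR i) h8
        exact Or.inr (Or.inr ⟨rfl, Or.inl rfl⟩)
      · rw [hqg] at h8
        obtain ⟨rfl, rfl⟩ := ct14_ginj hR ht (hR.pR l) h8
        exact Or.inr (Or.inr ⟨rfl, Or.inr rfl⟩)
    · rintro (⟨rfl, h6, h7⟩ | ⟨hn, h6, h7⟩ | ⟨rfl, rfl | rfl⟩)
      · exact Or.inl ⟨t, h6, h7, Or.inl rfl⟩
      · obtain ⟨t', rfl⟩ : ∃ t', t = t' + 1 := ⟨t - 1, by omega⟩
        refine Or.inl ⟨t', by omega, by omega, Or.inr ?_⟩
        rw [heg t' ht, hn]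
      · exact Or.inr (Or.inl (hqg i).symm)
      · exact Or.inr (Or.inr (hqg l).symm)
  -- `Z` is even
  have hEven : M.Even Z := by
    refine ⟨hZacl, fun d => ?_⟩
    by_cases hd : ∃ x, E.ι x = d
    · obtain ⟨x, rfl⟩ := hd
      rw [← E.hs, ← E.hs]
      by_cases hx : ∃ t, t < R ∧ ∃ n, x = ct14_g F r t n
      · obtain ⟨t, ht, n, rfl⟩ := hx
        rw [ct14_gs, ct14_gs]
        have hu1 : t = τ i → u t = false := fun h => h ▸ hR.pu i
        have hu2 : t = τ l → u t = false := fun h => h ▸ hR.pu l
        have key : (Z (E.ι (ct14_g F r t 0)) ^^ Z (E.ι (ct14_g F r t 1)) ^^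
            Z (E.ι (ct14_g F r t 2))) = false := by
          have e0 := (hZι (ct14_g F r t 0)).trans (hcl t ht 0)
          have e1 := (hZι (ct14_g F r t 1)).trans (hcl t ht 1)
          have e2 := (hZι (ct14_g F r t 2)).trans (hcl t ht 2)
          have n01 : (0 : Fin 3) ≠ 1 := by decide
          have n02 : (0 : Fin 3) ≠ 2 := by decide
          have n12 : (1 : Fin 3) ≠ 2 := by decide
          rcases Nat.lt_trichotomy t (τ i) with hti | hti | hti
          · have z0 : Z (E.ι (ct14_g F r t 0)) = false := by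
              rw [← Bool.not_eq_true, e0]; rintro (h | h | h) <;> omega
            have z1 : Z (E.ι (ct14_g F r t 1)) = false := by
              rw [← Bool.not_eq_true, e1]; rintro (h | h | h) <;> omega
            have z2 : Z (E.ι (ct14_g F r t 2)) = false := by
              rw [← Bool.not_eq_true, e2]; rintro (h | h | h) <;> omega
            rw [z0, z1, z2]; rfl
          · have z0 : Z (E.ι (ct14_g F r t 0)) = true :=
              e0.mpr (Or.inl ⟨rfl, by omega, by omega⟩)
            have z1 : Z (E.ι (ct14_g F r t 1)) = true :=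
              e1.mpr (Or.inr (Or.inr ⟨rfl, Or.inl hti⟩))
            have z2 : Z (E.ι (ct14_g F r t 2)) = false := by
              rw [← Bool.not_eq_true, e2]
              rintro (⟨h, -⟩ | h | ⟨h, -⟩)
              · exact n02 h.symm
              · omega
              · exact n12 h.symm
            rw [z0, z1, z2]; rfl
          · rcases Nat.lt_trichotomy t (τ l) with htl | htl | htl
            · have z0 : Z (E.ι (ct14_g F r t 0)) = true :=
                e0.mpr (Or.inl ⟨rfl, by omega, by omega⟩)
              by_cases hu : u t = true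
              · have z1 : Z (E.ι (ct14_g F r t 1)) = true :=
                  e1.mpr (Or.inr (Or.inl ⟨by rw [if_pos hu], by omega, by omega⟩))
                have z2 : Z (E.ι (ct14_g F r t 2)) = false := by
                  rw [← Bool.not_eq_true, e2]
                  rintro (⟨h, -⟩ | ⟨h, -⟩ | ⟨h, -⟩)
                  · exact n02 h.symm
                  · rw [if_pos hu] at h; exact n12 h.symm
                  · exact n12 h.symm
                rw [z0, z1, z2]; rfl
              · have z2 : Z (E.ι (ct14_g F r t 2)) = true :=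
                  e2.mpr (Or.inr (Or.inl ⟨by rw [if_neg hu], by omega, by omega⟩))
                have z1 : Z (E.ι (ct14_g F r t 1)) = false := by
                  rw [← Bool.not_eq_true, e1]
                  rintro (⟨h, -⟩ | ⟨h, -⟩ | ⟨-, h⟩)
                  · exact n01 h.symm
                  · rw [if_neg hu] at h; exact n12 h
                  · omega
                rw [z0, z1, z2]; rfl
            · have hu := hu2 htl
              have z0 : Z (E.ι (ct14_g F r t 0)) = false := by
                rw [← Bool.not_eq_true, e0]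
                rintro (h | ⟨h, -⟩ | ⟨h, -⟩)
                · omega
                · rw [hu] at h; exact n02 h
                · exact n01 h
              have z1 : Z (E.ι (ct14_g F r t 1)) = true :=
                e1.mpr (Or.inr (Or.inr ⟨rfl, Or.inr htl⟩))
              have z2 : Z (E.ι (ct14_g F r t 2)) = true :=
                e2.mpr (Or.inr (Or.inl ⟨by rw [hu]; rfl, by omega, by omega⟩))
              rw [z0, z1, z2]; rfl
            · have z0 : Z (E.ι (ct14_g F r t 0)) = false := by
                rw [← Bool.not_eq_true, e0]; rintro (h | h | h) <;> omega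
              have z1 : Z (E.ι (ct14_g F r t 1)) = false := by
                rw [← Bool.not_eq_true, e1]; rintro (h | h | h) <;> omega
              have z2 : Z (E.ι (ct14_g F r t 2)) = false := by
                rw [← Bool.not_eq_true, e2]; rintro (h | h | h) <;> omega
              rw [z0, z1, z2]; rfl
        revert key
        fin_cases n <;>
          simp only [Fin.zero_eta, Fin.mk_one, Fin.reduceFinMk, Fin.isValue, Fin.reduceAdd,
            zero_add] <;>
          cases Z (E.ι (ct14_g F r t 0)) <;> cases Z (E.ι (ct14_g F r t 1)) <;>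
          cases Z (E.ι (ct14_g F r t 2)) <;> decide
      · -- not at a boundary vertex
        have hno : ∀ x, (¬ ∃ t, t < R ∧ ∃ n, x = ct14_g F r t n) → Z (E.ι x) = false := by
          intro x hx
          rw [← Bool.not_eq_true, hZι]
          rintro (⟨t, -, h7, h8 | h8⟩ | h8 | h8)
          · exact hx ⟨t, h7.trans (hR.pR l), 0, h8⟩
          · have h9 : t + 1 < R := lt_of_le_of_lt (Nat.succ_le_of_lt h7) (hR.pR l)
            exact hx ⟨t + 1, h9, _, h8.trans (heg t h9)⟩
          · exact hx ⟨τ i, hR.pR i, 1, h8.trans (hqg i)⟩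
          · exact hx ⟨τ l, hR.pR l, 1, h8.trans (hqg l)⟩
        have hx1 : ¬ ∃ t, t < R ∧ ∃ n, F.s x = ct14_g F r t n := by
          rintro ⟨t, ht, n, h⟩
          refine hx ⟨t, ht, n + 1 + 1, ?_⟩
          rw [← ct14_gs, ← ct14_gs, ← h, F.s3]
        have hx2 : ¬ ∃ t, t < R ∧ ∃ n, F.s (F.s x) = ct14_g F r t n := by
          rintro ⟨t, ht, n, h⟩
          refine hx ⟨t, ht, n + 1, ?_⟩
          rw [← ct14_gs, ← h, F.s3]
        rw [hno x hx, hno _ hx1, hno _ hx2]
        rfl
    · -- outside
      push Not at hd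
      have hd0 : d ∈ E.HSet := Or.inl hd
      set x : E.HSet := ⟨d, hd0⟩ with hx
      have hsx : (N.s x).1 = M.s d := hNs_out x hd
      have hd1 : ∀ y, E.ι y ≠ (N.s x).1 := by
        intro y hy
        rw [hsx] at hy
        exact hd (F.s (F.s y)) (by rw [E.hs, E.hs, hy, M.s3])
      have hssx : (N.s (N.s x)).1 = M.s (M.s d) := by
        rw [hNs_out _ hd1, hsx]
      have e0 : Z d = true ↔ P x := hZH d hd0
      have e1 : Z (M.s d) = true ↔ P (N.s x) := by
        have : Z (N.s x).1 = true ↔ P (N.s x) := hZH (N.s x).1 (N.s x).2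
        rwa [hsx] at this
      have e2 : Z (M.s (M.s d)) = true ↔ P (N.s (N.s x)) := by
        have : Z (N.s (N.s x)).1 = true ↔ P (N.s (N.s x)) :=
          hZH (N.s (N.s x)).1 (N.s (N.s x)).2
        rwa [hssx] at this
      have hne : N.s x ≠ x := by
        intro h
        have := congrArg Subtype.val h
        rw [hsx] at this
        exact M.s1 d this
      have hone := hO.one x hne
      have hsss : N.s (N.s (N.s x)) = x := N.s3 x
      have hP1 : ∀ y, P y → O y = true := fun y h => h.1
      -- transfer of `P` between used darts of the vertex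
      have t01 : P x → O (N.s x) = true → P (N.s x) := hPs x
      have t02 : P x → O (N.s (N.s x)) = true → P (N.s (N.s x)) := hPss x
      have t12 : P (N.s x) → O (N.s (N.s x)) = true → P (N.s (N.s x)) := hPs _
      have t10 : P (N.s x) → O x = true → P x := by
        intro h h'
        have := hPss _ h
        rw [hsss] at this
        exact this h'
      have t21 : P (N.s (N.s x)) → O (N.s x) = true → P (N.s x) := by
        intro h h'
        have := hPss _ h
        rw [hsss] at this
        exact this h'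
      have t20 : P (N.s (N.s x)) → O x = true → P x := by
        intro h h'
        have := hPs _ h
        rw [hsss] at this
        exact this h'
      have hfalse : ∀ y, O y = false → ¬ P y := by
        intro y hy h
        rw [h.1] at hy
        exact absurd hy (by decide)
      rcases hone with ⟨o0, o1, o2⟩ | ⟨o0, o1, o2⟩ | ⟨o0, o1, o2⟩
      · have z0 : Z d = false := by
          rw [← Bool.not_eq_true, e0]; exact hfalse _ o0
        have z12 : Z (M.s d) = Z (M.s (M.s d)) := by
          rw [Bool.eq_iff_iff, e1, e2]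
          exact ⟨fun h => t12 h o2, fun h => t21 h o1⟩
        rw [z0, z12]; simp
      · have z1 : Z (M.s d) = false := by
          rw [← Bool.not_eq_true, e1]; exact hfalse _ o1
        have z02 : Z d = Z (M.s (M.s d)) := by
          rw [Bool.eq_iff_iff, e0, e2]
          exact ⟨fun h => t02 h o2, fun h => t20 h o0⟩
        rw [z1, z02]; simp
      · have z2 : Z (M.s (M.s d)) = false := by
          rw [← Bool.not_eq_true, e2]; exact hfalse _ o2
        have z01 : Z d = Z (M.s d) := by
          rw [Bool.eq_iff_iff, e0, e1]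
          exact ⟨fun h => t01 h o1, fun h => t10 h o0⟩
        rw [z2, z01]; simp
  -- the faces
  obtain ⟨φ, hφf, hφZ⟩ := hp Z hEven
  have hφa : ∀ d, Z d = false → φ (M.a d) = φ d := by
    intro d hd
    have := hφZ d
    rw [hd] at this
    revert this
    cases φ d <;> cases φ (M.a d) <;> decide
  have hφa' : ∀ d, Z d = true → φ (M.a d) = !φ d := by
    intro d hd
    have := hφZ d
    rw [hd] at this
    revert this
    cases φ d <;> cases φ (M.a d) <;> decide
  have hφs : ∀ d, φ (M.s d) = φ (M.a d) := by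
    intro d
    have := hφf (M.a d)
    unfold CMap.f at this
    rwa [M.a2] at this
  have hring : ∀ t, t < R → φ (E.ι (r t)) = φ (E.ι (r 0)) := by
    intro t
    induction t with
    | zero => intro _; rfl
    | succ t ih =>
      intro ht
      rw [← ih (by omega)]
      have h6 : φ (M.s (M.a (E.ι (r t)))) = φ (E.ι (r t)) := hφf (E.ι (r t))
      rw [← E.he _ (hR.np t ht), ← E.hs, hR.next t ht] at h6
      by_cases hu : u (t + 1) = true
      · rw [if_pos hu] at h6
        rw [← h6]
        have h7 : Z (E.ι (F.s (F.s (r (t + 1))))) = false := by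
          rw [← Bool.not_eq_true, hZι]
          have := hcl (t + 1) ht 2
          rw [ct14_g2] at this
          rw [this]
          rintro (⟨h, -⟩ | ⟨h, -⟩ | ⟨h, -⟩)
          · exact absurd h (by decide)
          · rw [if_pos hu] at h; exact absurd h (by decide)
          · exact absurd h (by decide)
        have h8 := hφs (E.ι (F.s (F.s (r (t + 1)))))
        rw [hφa _ h7, ← E.hs, F.s3] at h8
        exact h8
      · rw [if_neg hu, F.s3] at h6
        exact h6
  have hq : ∀ j', φ (E.ι (F.q j')) = φ (M.a (E.ι (r (τ j')))) := by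
    intro j'
    rw [hR.pq, E.hs]
    exact hφs _
  have hqj : φ (E.ι (F.q j)) = !φ (E.ι (r 0)) := by
    rw [hq, hφa', hring _ (hR.pR j)]
    rw [hZι]
    exact Or.inl ⟨τ j, hτij.le, hτjl, Or.inl rfl⟩
  have hqm : φ (E.ι (F.q m)) = φ (E.ι (r 0)) := by
    rw [hq, hφa, hring _ (hR.pR m)]
    rw [← Bool.not_eq_true, hZι]
    have := hcl (τ m) (hR.pR m) 0
    rw [ct14_g0] at this
    rw [this]
    rintro (⟨-, h⟩ | ⟨h, -⟩ | ⟨h, -⟩)
    · omega
    · by_cases hu : u (τ m) = true
      · rw [if_pos hu] at h; exact absurd h (by decide)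
      · rw [if_neg hu] at h; exact absurd h (by decide)
    · exact absurd h (by decide)
  -- the component of port `j` avoids `Z`
  have hnotP : ∀ x, Conn N.s N.a O (N.port j) x → ¬ P x := by
    rintro x hx ⟨-, hx'⟩
    have hc : Conn N.s N.a O (N.port i) (N.port j) := hx'.trans (hsymm _ _ hx)
    rcases hb.uni i j hOi hc with h | h
    · exact absurd h h1.ne'
    · rw [h4] at h; exact absurd h h2.ne
  have hconst : ∀ x, Conn N.s N.a O (N.port j) x → φ x.1 = φ (N.port j).1 := by
    intro x hx
    induction hx with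
    | refl => rfl
    | @tail x y hxc hstep ih =>
      rw [← ih]
      have hZx : Z x.1 = false := by
        rw [← Bool.not_eq_true, hZH x.1 x.2]
        exact hnotP x hxc
      obtain ⟨hOx, hOy, hxy⟩ := hstep
      rcases hxy with rfl | rfl | rfl
      · exact hφa _ hZx
      · by_cases hin : ∃ z, E.ι z = x.1
        · rw [hNs_in x hin]
        · push Not at hin
          rw [hNs_out x hin, hφs]
          exact hφa _ hZx
      · by_cases hin : ∃ z, E.ι z = x.1
        · rw [hNs_in x hin, hNs_in x hin]
        · push Not at hin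
          have hsx : (N.s x).1 = M.s x.1 := hNs_out x hin
          have hin1 : ∀ z, E.ι z ≠ (N.s x).1 := by
            intro y hy
            rw [hsx] at hy
            exact hin (F.s (F.s y)) (by rw [E.hs, E.hs, hy, M.s3])
          have hZsx : Z (N.s x).1 = false := by
            rw [← Bool.not_eq_true, hZH (N.s x).1 (N.s x).2]
            intro hPsx
            exact hnotP (N.s x) (hxc.tail ⟨hOx, hPsx.1, Or.inr (Or.inl rfl)⟩) hPsx
          rw [hNs_out _ hin1, hφs, hφa _ hZsx, hsx, hφs]
          exact hφa _ hZx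
  have hfin := hconst (N.port m) hcjm
  rw [hport, hport, hqj, hqm] at hfin
  revert hfin
  cases φ (E.ι (r 0)) <;> decide

end data

end Pool.Agent.Helper17.CT
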