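import Pool.Agent.Helper17.CT.Piece

set_option autoImplicit false

/-!
FS-8: the parity certificate. The numbers of outer systems compatible with the items of a
certificate cancel modulo two.
-/

namespace Pool.Agent.Helper17.CT

/-! ### lists -/

private lemma par_allL_iff {α : Type} (g : α → Bool) (l : List α) :
    allL g l = true ↔ ∀ a ∈ l, g a = true := by
  induction l with
  | nil => simp [allL]
  | cons a l ih =>
    have h : allL g (a :: l) = (g a && allL g l) := rfl
    rw [h, Bool.and_eq_true, ih]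
    simp

private lemma par_getN_mem (l : List ℕ) (p : ℕ) (h : p < l.length) : getN l p ∈ l := by
  induction l generalizing p with
  | nil => simp at h
  | cons a l ih =>
    cases p with
    | zero => simp [getN]
    | succ p =>
      have h1 : getN (a :: l) (p + 1) = getN l p := rfl
      rw [h1]
      exact List.mem_cons_of_mem _ (ih p (by simpa using h))

private lemma par_getN_zipN (g : ℕ → ℕ → ℕ) (l l' : List ℕ) (p : ℕ) (h : p < l.length)
    (h' : p < l'.length) : getN (zipN g l l') p = g (getN l p) (getN l' p) := by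
  induction l generalizing l' p with
  | nil => simp at h
  | cons a l ih =>
    cases l' with
    | nil => simp at h'
    | cons b l' =>
      cases p with
      | zero => rfl
      | succ p =>
        have h1 : getN (zipN g (a :: l) (b :: l')) (p + 1) = getN (zipN g l l') p := rfl
        rw [h1]
        exact ih l' p (by simpa using h) (by simpa using h')

private lemma par_length_zipN (g : ℕ → ℕ → ℕ) (l l' : List ℕ) (h : l.length = l'.length) :
    (zipN g l l').length = l.length := by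
  induction l generalizing l' with
  | nil => cases l' <;> rfl
  | cons a l ih =>
    cases l' with
    | nil => simp at h
    | cons b l' =>
      have h1 : (zipN g (a :: l) (b :: l')).length = (zipN g l l').length + 1 := rfl
      rw [h1, ih l' (by simpa using h)]
      rfl

/-- what `okCert` says -/
private structure ParOK (Ct : Cert) (k : ℕ) : Prop where
  k1 : ∀ p < k, getN Ct.K1 p < 2 ^ Ct.B
  k2 : ∀ p < k, getN Ct.K2 p < 2 ^ Ct.B
  dj : ∀ p < k, getN Ct.K1 p &&& getN Ct.K2 p = 0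
  us : ∀ p < k, getN (zipN (usOf Ct.B) Ct.K1 Ct.K2) p = usOf Ct.B (getN Ct.K1 p) (getN Ct.K2 p)
  xs : ∀ p < k, getN (zipN (xsOf Ct.B) Ct.K1 Ct.K2) p = xsOf Ct.B (getN Ct.K1 p) (getN Ct.K2 p)
  md : Ct.B % Ct.wd = 0
  wd : 0 < Ct.wd
  le : 3 * Ct.B ≤ Ct.wd * 2 ^ Ct.t
  xr : (Ct.W % 2 ^ Ct.B) ^^^ (((Ct.W >>> Ct.B) % 2 ^ Ct.B) ^^^ (Ct.W >>> (2 * Ct.B))) = 0

private lemma par_ok {Ct : Cert} {k : ℕ} (h : okCert Ct k = true) : ParOK Ct k := by
  have h0 : okCert Ct k = (Nat.beq Ct.K1.length k && (Nat.beq Ct.K2.length k &&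
    (allL (fun x => Nat.beq (Nat.shiftRight x Ct.B) 0) Ct.K1 &&
    (allL (fun x => Nat.beq (Nat.shiftRight x Ct.B) 0) Ct.K2 &&
    (allL (fun x => Nat.beq x 0) (zipN Nat.land Ct.K1 Ct.K2) &&
    (Nat.beq (Nat.mod Ct.B Ct.wd) 0 && (Nat.blt 0 Ct.wd &&
    (Nat.ble (Nat.mul 3 Ct.B) (Nat.mul Ct.wd (Nat.shiftLeft 1 Ct.t)) &&
    Nat.beq (Nat.xor (Nat.mod Ct.W (Nat.shiftLeft 1 Ct.B))
      (Nat.xor (Nat.mod (Nat.shiftRight Ct.W Ct.B) (Nat.shiftLeft 1 Ct.B))
        (Nat.shiftRight Ct.W (Nat.mul 2 Ct.B)))) 0)))))))) := rfl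
  rw [h0] at h
  simp only [Bool.and_eq_true, par_allL_iff] at h
  obtain ⟨a1, a2, a3, a4, a5, a6, a7, a8, a9⟩ := h
  have l1 : Ct.K1.length = k := Nat.eq_of_beq_eq_true a1
  have l2 : Ct.K2.length = k := Nat.eq_of_beq_eq_true a2
  have hsl : ∀ n, Nat.shiftLeft 1 n = 2 ^ n := fun n => by
    have : Nat.shiftLeft 1 n = 1 <<< n := rfl
    rw [this, Nat.one_shiftLeft]
  have hlt : ∀ x, Nat.beq (Nat.shiftRight x Ct.B) 0 = true → x < 2 ^ Ct.B := by
    intro x hx
    have h1 : x >>> Ct.B = 0 := Nat.eq_of_beq_eq_true hx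
    rw [Nat.shiftRight_eq_div_pow] at h1
    exact (Nat.div_eq_zero_iff_lt (by positivity)).mp h1
  refine ⟨?_, ?_, ?_, ?_, ?_, ?_, ?_, ?_, ?_⟩
  · intro p hp
    exact hlt _ (a3 _ (par_getN_mem _ _ (by rw [l1]; exact hp)))
  · intro p hp
    exact hlt _ (a4 _ (par_getN_mem _ _ (by rw [l2]; exact hp)))
  · intro p hp
    have h1 := a5 _ (par_getN_mem _ p (by rw [par_length_zipN _ _ _ (by rw [l1, l2]), l1]; exact hp))
    rw [par_getN_zipN _ _ _ _ (by rw [l1]; exact hp) (by rw [l2]; exact hp)] at h1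
    exact Nat.eq_of_beq_eq_true h1
  · intro p hp
    exact par_getN_zipN _ _ _ _ (by rw [l1]; exact hp) (by rw [l2]; exact hp)
  · intro p hp
    exact par_getN_zipN _ _ _ _ (by rw [l1]; exact hp) (by rw [l2]; exact hp)
  · exact Nat.eq_of_beq_eq_true a6
  · exact Nat.le_of_ble_eq_true a7
  · have h1 := Nat.le_of_ble_eq_true a8
    rw [hsl] at h1
    exact h1
  · have h1 := Nat.eq_of_beq_eq_true a9
    rw [hsl] at h1
    exact h1

/-! ### bits of the items -/

private lemma par_tb_lt {x B i : ℕ} (hx : x < 2 ^ B) (hi : B ≤ i) : x.testBit i = false :=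
  Nat.testBit_eq_false_of_lt (lt_of_lt_of_le hx (Nat.pow_le_pow_right (by norm_num) hi))

private lemma par_us {B k1 k2 : ℕ} (h1 : k1 < 2 ^ B) (h2 : k2 < 2 ^ B) {y : ℕ} (hy : y < B) :
    (usOf B k1 k2).testBit y = (k1.testBit y || k2.testBit y) ∧
    (usOf B k1 k2).testBit (B + y) = !k1.testBit y ∧
    (usOf B k1 k2).testBit (2 * B + y) = !k2.testBit y := by
  have hu : usOf B k1 k2 = ((k1 ||| k2) ||| (((2 ^ B - 1) ^^^ k1) <<< B)) |||
      (((2 ^ B - 1) ^^^ k2) <<< (2 * B)) := by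
    unfold usOf
    have : Nat.shiftLeft 1 B = 2 ^ B := by
      have : Nat.shiftLeft 1 B = 1 <<< B := rfl
      rw [this, Nat.one_shiftLeft]
    rw [this]
    rfl
  rw [hu]
  simp only [Nat.testBit_or, Nat.testBit_shiftLeft, Nat.testBit_xor, Nat.testBit_two_pow_sub_one]
  refine ⟨?_, ?_, ?_⟩
  · have e1 : ¬ (y ≥ B) := by omega
    have e2 : ¬ (y ≥ 2 * B) := by omega
    simp [e1, e2]
  · have e2 : ¬ (B + y ≥ 2 * B) := by omega
    rw [par_tb_lt h1 (by omega : B ≤ B + y), par_tb_lt h2 (by omega : B ≤ B + y)]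
    simp [e2, hy]
  · have e1 : 2 * B + y ≥ B := by omega
    have e2 : 2 * B + y ≥ 2 * B := by omega
    have e3 : ¬ (2 * B + y - B < B) := by omega
    have e4 : 2 * B + y - 2 * B = y := by omega
    rw [par_tb_lt h1 (by omega : B ≤ 2 * B + y), par_tb_lt h2 (by omega : B ≤ 2 * B + y),
      par_tb_lt h1 (by omega : B ≤ 2 * B + y - B), e4]
    simp [e3, hy]

private lemma par_xs {B k1 k2 : ℕ} (h2 : k2 < 2 ^ B) {y : ℕ} (hy : y < B) :
    (xsOf B k1 k2).testBit y = k2.testBit y ∧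
    (xsOf B k1 k2).testBit (B + y) = k2.testBit y ∧
    (xsOf B k1 k2).testBit (2 * B + y) = k1.testBit y := by
  have hu : xsOf B k1 k2 = (k2 ||| (k2 <<< B)) ||| (k1 <<< (2 * B)) := rfl
  rw [hu]
  simp only [Nat.testBit_or, Nat.testBit_shiftLeft]
  refine ⟨?_, ?_, ?_⟩
  · have e1 : ¬ (y ≥ B) := by omega
    have e2 : ¬ (y ≥ 2 * B) := by omega
    simp [e1, e2]
  · have e2 : ¬ (B + y ≥ 2 * B) := by omega
    rw [par_tb_lt h2 (by omega : B ≤ B + y)]
    simp [e2]
  · have e4 : 2 * B + y - 2 * B = y := by omega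
    rw [par_tb_lt h2 (by omega : B ≤ 2 * B + y), par_tb_lt h2 (by omega : B ≤ 2 * B + y - B), e4]
    simp

/-- the colour of the pattern with bits `p`, `q` -/
private def parK (p q : Bool) : Fin 3 := if p then 1 else if q then 2 else 0

private lemma par_item {k : ℕ} {Ct : Cert} (hC : ParOK Ct k) (b : Fin k → Fin k)
    (hb : ∀ j, b (b j) = j) (ε : Fin k → Bool) (L : ℕ) (hL : ItemSet Ct b ε L) (c : Fin 3) (y : ℕ)
    (hy : y < Ct.B) :
    L.testBit (Ct.B * c + y) = true ↔
      Compat b ε (fun p => parK ((getN Ct.K1 p).testBit y) ((getN Ct.K2 p).testBit y)) c := by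
  have hdj : ∀ p : Fin k, ¬ ((getN Ct.K1 p).testBit y = true ∧ (getN Ct.K2 p).testBit y = true) := by
    rintro p ⟨h1, h2⟩
    have h3 := congrArg (fun x => x.testBit y) (hC.dj p p.2)
    simp only [Nat.testBit_and, h1, h2, Nat.zero_testBit] at h3
    exact absurd h3 (by simp)
  have hU : ∀ p : Fin k, ((getN (zipN (usOf Ct.B) Ct.K1 Ct.K2) p).testBit (Ct.B * c + y) = true ↔
      parK ((getN Ct.K1 p).testBit y) ((getN Ct.K2 p).testBit y) ≠ c) := by
    intro p
    rw [hC.us p p.2]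
    obtain ⟨e1, e2, e3⟩ := par_us (hC.k1 p p.2) (hC.k2 p p.2) hy
    have hd := hdj p
    fin_cases c
    · show (usOf Ct.B _ _).testBit (Ct.B * 0 + y) = true ↔ _
      rw [mul_zero, zero_add, e1]
      revert hd
      cases (getN Ct.K1 p).testBit y <;> cases (getN Ct.K2 p).testBit y <;> simp [parK]
    · show (usOf Ct.B _ _).testBit (Ct.B * 1 + y) = true ↔ _
      rw [mul_one, e2]
      revert hd
      cases (getN Ct.K1 p).testBit y <;> cases (getN Ct.K2 p).testBit y <;> simp [parK]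
    · show (usOf Ct.B _ _).testBit (Ct.B * 2 + y) = true ↔ _
      rw [mul_comm Ct.B 2, e3]
      revert hd
      cases (getN Ct.K1 p).testBit y <;> cases (getN Ct.K2 p).testBit y <;> simp [parK]
  have hX : ∀ p p' : Fin k,
      parK ((getN Ct.K1 p).testBit y) ((getN Ct.K2 p).testBit y) ≠ c →
      parK ((getN Ct.K1 p').testBit y) ((getN Ct.K2 p').testBit y) ≠ c →
      ((getN (zipN (xsOf Ct.B) Ct.K1 Ct.K2) p).testBit (Ct.B * c + y) =
        (getN (zipN (xsOf Ct.B) Ct.K1 Ct.K2) p').testBit (Ct.B * c + y) ↔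
      parK ((getN Ct.K1 p').testBit y) ((getN Ct.K2 p').testBit y) =
        parK ((getN Ct.K1 p).testBit y) ((getN Ct.K2 p).testBit y)) := by
    intro p p'
    rw [hC.xs p p.2, hC.xs p' p'.2]
    obtain ⟨e1, e2, e3⟩ := par_xs (k1 := getN Ct.K1 p) (hC.k2 p p.2) hy
    obtain ⟨e1', e2', e3'⟩ := par_xs (k1 := getN Ct.K1 p') (hC.k2 p' p'.2) hy
    have hd := hdj p
    have hd' := hdj p'
    fin_cases c
    · show _ → _ → ((xsOf Ct.B _ _).testBit (Ct.B * 0 + y) =
        (xsOf Ct.B _ _).testBit (Ct.B * 0 + y) ↔ _)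
      rw [mul_zero, zero_add, e1, e1']
      revert hd hd'
      cases (getN Ct.K1 p).testBit y <;> cases (getN Ct.K2 p).testBit y <;>
        cases (getN Ct.K1 p').testBit y <;> cases (getN Ct.K2 p').testBit y <;> simp [parK]
    · show _ → _ → ((xsOf Ct.B _ _).testBit (Ct.B * 1 + y) =
        (xsOf Ct.B _ _).testBit (Ct.B * 1 + y) ↔ _)
      rw [mul_one, e2, e2']
      revert hd hd'
      cases (getN Ct.K1 p).testBit y <;> cases (getN Ct.K2 p).testBit y <;>
        cases (getN Ct.K1 p').testBit y <;> cases (getN Ct.K2 p').testBit y <;> simp [parK]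
    · show _ → _ → ((xsOf Ct.B _ _).testBit (Ct.B * 2 + y) =
        (xsOf Ct.B _ _).testBit (Ct.B * 2 + y) ↔ _)
      rw [mul_comm Ct.B 2, e3, e3']
      revert hd hd'
      cases (getN Ct.K1 p).testBit y <;> cases (getN Ct.K2 p).testBit y <;>
        cases (getN Ct.K1 p').testBit y <;> cases (getN Ct.K2 p').testBit y <;> simp [parK]
  have hlt : Ct.B * (c : ℕ) + y < 3 * Ct.B := by
    have hc : (c : ℕ) ≤ 2 := Nat.lt_succ_iff.mp c.2
    have : Ct.B * (c : ℕ) ≤ Ct.B * 2 := Nat.mul_le_mul_left _ hc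
    omega
  rw [hL]
  constructor
  · rintro ⟨-, h⟩ p
    obtain ⟨h1, h2⟩ := h p
    have h3 : parK ((getN Ct.K1 p).testBit y) ((getN Ct.K2 p).testBit y) ≠ c ↔ b p ≠ p := by
      rw [← hU p]; exact h1
    refine ⟨h3, fun hp => ?_⟩
    have h4 := h2 hp
    have hp' : b (b p) ≠ b p := by rw [hb]; exact fun h => hp h.symm
    have h5 : parK ((getN Ct.K1 (b p)).testBit y) ((getN Ct.K2 (b p)).testBit y) ≠ c := by
      rw [← hU (b p)]; exact (h (b p)).1.2 hp'
    rw [← h4]
    exact (hX p (b p) (h3.2 hp) h5).symm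
  · intro h
    refine ⟨hlt, fun p => ?_⟩
    obtain ⟨h1, h2⟩ := h p
    refine ⟨by rw [hU p]; exact h1, fun hp => ?_⟩
    rw [← h2 hp]
    have hp' : b (b p) ≠ b p := by rw [hb]; exact fun h => hp h.symm
    exact hX p (b p) (h1.2 hp) ((h (b p)).1.2 hp')

/-! ### parity -/

private lemma par_cast (n : ℕ) : (n : ZMod 2) = if Odd n then 1 else 0 := by
  split_ifs with h
  · exact (ZMod.natCast_eq_one_iff_odd).2 h
  · exact (ZMod.natCast_eq_zero_iff_even).2 (Nat.not_odd_iff_even.mp h)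

private lemma par_card {α : Type} [Fintype α] (p : α → Prop) [DecidablePred p] :
    ((Nat.card {x : α // p x} : ℕ) : ZMod 2) = ∑ x, if p x then (1 : ZMod 2) else 0 := by
  rw [Nat.card_eq_fintype_card, Fintype.card_subtype, Finset.sum_ite, Finset.sum_const_zero,
    add_zero, Finset.sum_const, nsmul_eq_mul, mul_one]

/-- FS-8c, from FS-8a -/
theorem parity_sum_of (hfold : ∀ wd t x j : ℕ, j < wd → ((fold wd t x).testBit j = true ↔
      Odd (Nat.card {i : Fin (2 ^ t) // x.testBit (wd * i + j) = true})))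
    {I : Type} {k : ℕ} {P : Inner I k} (D : Data P) (Ct : Cert)
    (hC : okCert Ct k = true) (L : D.Ω → ℕ) (hL : ∀ O, ItemSet Ct (D.b O) (D.ε O) (L O)) (j : ℕ)
    (hj : j < Ct.wd) :
    Even (Nat.card {O : D.Ω // (fold Ct.wd Ct.t (L O &&& Ct.W)).testBit j = true}) := by
  classical
  have hfin := D.fin
  have := Fintype.ofFinite D.Ω
  have hO := par_ok hC
  rw [← ZMod.natCast_eq_zero_iff_even, par_card]
  -- the numbers of compatible systems
  let N : ℕ → ZMod 2 := fun x => ∑ O : D.Ω, if (L O).testBit x = true then (1 : ZMod 2) else 0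
  let g : ℕ → ZMod 2 := fun x => if Ct.W.testBit x = true then N x else 0
  have e1 : (∑ O : D.Ω, if (fold Ct.wd Ct.t (L O &&& Ct.W)).testBit j = true
      then (1 : ZMod 2) else 0) = ∑ i : Fin (2 ^ Ct.t), g (Ct.wd * i + j) := by
    have h1 : ∀ O : D.Ω, (if (fold Ct.wd Ct.t (L O &&& Ct.W)).testBit j = true
        then (1 : ZMod 2) else 0) = ∑ i : Fin (2 ^ Ct.t),
          if (L O &&& Ct.W).testBit (Ct.wd * i + j) = true then (1 : ZMod 2) else 0 := by
      intro O
      rw [← par_card, par_cast]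
      exact if_congr (hfold _ _ _ _ hj) rfl rfl
    simp_rw [h1]
    rw [Finset.sum_comm]
    refine Finset.sum_congr rfl fun i _ => ?_
    show _ = if Ct.W.testBit (Ct.wd * i + j) = true then N (Ct.wd * i + j) else 0
    split_ifs with hw
    · refine Finset.sum_congr rfl fun O _ => ?_
      rw [Nat.testBit_and, hw, Bool.and_true]
    · refine Finset.sum_eq_zero fun O _ => ?_
      rw [if_neg]
      rw [Nat.testBit_and, Bool.and_eq_true]
      exact fun h => hw h.2
  rw [e1]
  have hg0 : ∀ x, 3 * Ct.B ≤ x → g x = 0 := by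
    intro x hx
    show (if Ct.W.testBit x = true then N x else 0) = 0
    split_ifs
    · refine Finset.sum_eq_zero fun O _ => ?_
      rw [if_neg]
      rw [hL O x]
      rintro ⟨h1, -⟩
      omega
    · rfl
  obtain ⟨q, hq⟩ : ∃ q, Ct.B = Ct.wd * q := Nat.dvd_of_mod_eq_zero hO.md
  have hq3 : 3 * q ≤ 2 ^ Ct.t := by
    have h1 := hO.le
    rw [hq] at h1
    have h2 : Ct.wd * (3 * q) ≤ Ct.wd * 2 ^ Ct.t := by
      calc Ct.wd * (3 * q) = 3 * (Ct.wd * q) := by ring
        _ ≤ _ := h1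
    exact Nat.le_of_mul_le_mul_left h2 hO.wd
  have e2 : ∑ i : Fin (2 ^ Ct.t), g (Ct.wd * i + j) = ∑ i ∈ Finset.range (3 * q),
      g (Ct.wd * i + j) := by
    rw [Finset.sum_range (fun i => g (Ct.wd * i + j)) |>.symm.trans rfl |>.symm.symm]
    symm
    refine Finset.sum_subset (fun i hi => ?_) fun i _ hi => ?_
    · rw [Finset.mem_range] at hi ⊢
      omega
    · rw [Finset.mem_range, not_lt] at hi
      apply hg0
      rw [hq]
      have : Ct.wd * (3 * q) ≤ Ct.wd * i := Nat.mul_le_mul_left _ hi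
      have h3 : 3 * (Ct.wd * q) = Ct.wd * (3 * q) := by ring
      omega
  have e3 : ∑ i ∈ Finset.range (3 * q), g (Ct.wd * i + j) = ∑ i ∈ Finset.range q,
      (g (Ct.B * 0 + (Ct.wd * i + j)) + g (Ct.B * 1 + (Ct.wd * i + j))
        + g (Ct.B * 2 + (Ct.wd * i + j))) := by
    have h3q : 3 * q = q + q + q := by ring
    rw [h3q, Finset.sum_range_add, Finset.sum_range_add, Finset.sum_add_distrib,
      Finset.sum_add_distrib]
    congr 1
    · congr 1
      · refine Finset.sum_congr rfl fun i _ => ?_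
        rw [mul_zero, zero_add]
      · refine Finset.sum_congr rfl fun i _ => ?_
        rw [hq]
        congr 1
        ring
    · refine Finset.sum_congr rfl fun i _ => ?_
      rw [hq]
      congr 1
      ring
  rw [e2, e3]
  refine Finset.sum_eq_zero fun i hi => ?_
  rw [Finset.mem_range] at hi
  set y := Ct.wd * i + j with hy
  have hyB : y < Ct.B := by
    rw [hq, hy]
    have : Ct.wd * (i + 1) ≤ Ct.wd * q := Nat.mul_le_mul_left _ hi
    rw [mul_add, mul_one] at this
    omega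
  -- the three numbers agree modulo two
  have hN : ∀ c : Fin 3, N (Ct.B * c + y) = ((Nat.card {O : D.Ω // Compat (D.b O) (D.ε O)
      (fun p => parK ((getN Ct.K1 p).testBit y) ((getN Ct.K2 p).testBit y)) c} : ℕ) : ZMod 2) := by
    intro c
    rw [par_card]
    refine Finset.sum_congr rfl fun O _ => ?_
    exact if_congr (par_item hO (D.b O) (D.inv O) (D.ε O) (L O) (hL O) c y hyB) rfl rfl
  have hpar : ∀ c c' : Fin 3, N (Ct.B * c + y) = N (Ct.B * c' + y) := by
    intro c c'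
    rw [hN, hN]
    exact (ZMod.natCast_eq_natCast_iff _ _ _).2 (D.par _ c c')
  have h01 : N (Ct.B * 1 + y) = N (Ct.B * 0 + y) := hpar 1 0
  have h02 : N (Ct.B * 2 + y) = N (Ct.B * 0 + y) := hpar 2 0
  -- the weights add up to zero
  have hW : (Ct.W.testBit (Ct.B * 0 + y) ^^ (Ct.W.testBit (Ct.B * 1 + y) ^^
      Ct.W.testBit (Ct.B * 2 + y))) = false := by
    have h1 := congrArg (fun x => x.testBit y) hO.xr
    simp only [Nat.testBit_xor, Nat.testBit_mod_two_pow, Nat.testBit_shiftRight,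
      Nat.zero_testBit, hyB, decide_true, Bool.true_and] at h1
    rw [mul_zero, zero_add, mul_one, mul_comm Ct.B 2]
    exact h1
  show (if Ct.W.testBit (Ct.B * 0 + y) = true then N (Ct.B * 0 + y) else 0) +
    (if Ct.W.testBit (Ct.B * 1 + y) = true then N (Ct.B * 1 + y) else 0) +
    (if Ct.W.testBit (Ct.B * 2 + y) = true then N (Ct.B * 2 + y) else 0) = 0
  rw [h01, h02]
  have h2 : N (Ct.B * 0 + y) + N (Ct.B * 0 + y) = 0 := CharTwo.add_self_eq_zero _
  clear h01 h02
  generalize N (Ct.B * 0 + y) = a at h2 ⊢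
  revert hW
  cases Ct.W.testBit (Ct.B * 0 + y) <;> cases Ct.W.testBit (Ct.B * 1 + y) <;>
    cases Ct.W.testBit (Ct.B * 2 + y) <;> simp [h2]

end Pool.Agent.Helper17.CT
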